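import Pool.Agent.R721.Andre.Coarsest

/-!
André's supercharacter theory of the unitriangular group `U_n(F_q)` is the coarsest supercharacter
theory containing all single-box characters as irreducible characters.

Idea. In any supercharacter theory containing the single-box characters, these are constant on
superclasses. The values of all single-box characters at `g` determine the two-sided orbit of
`g - 1`: bring `g - 1` to a matrix with at most one nonzero entry in each row and column; for such
a matrix `z` the value of the character of the box `(i, j)` with label `a` is a nonnegative number
not depending on `a` times `θ(a * z i j)`, and that number is positive if `z i j ≠ 0`.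
-/

set_option autoImplicit false

namespace Pool.Agent.Results.MP_1f99fc_al.AndreCoarsest

open Pool.Agent.R721.Andre

/-- Let `F` be a finite field and `θ` a nontrivial character of its additive group. Up to positive
scalars the single-box orbit sums are irreducible characters of `U_n(F)`. There is a supercharacter
theory `A` of `U_n(F)` whose superclasses are the sets `{h : h - 1 ∈ U (g - 1) U}` and whose
supercharacters are exactly the orbit sums `g ↦ ∑ θ(mu (g - 1))` over the two-sided orbits of linear
functionals (André's theory). It contains every single-box irreducible character, and every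
supercharacter theory `T` of `U_n(F)` which contains every single-box irreducible character is
finer: each block of `T.K` lies in a block of `A.K` and each block of `T.X` in a block of `A.X`. -/
theorem result (n : ℕ) (F : Type) [Field F] [Fintype F] (θ : AddChar F ℂ) (hθ : θ ≠ 1) :
    (∀ (i j : Fin n) (a : F), i < j → a ≠ 0 →
      ∃ χ : IrrCh (U n F), ∃ c : ℝ, 0 < c ∧ ∀ g, χ.1 g = c * orbitSum θ (box i j a) g) ∧
    ∃ A : SupercharacterTheory (U n F),
      (∀ g h : U n F, A.K g h ↔ ∃ u v : U n F, mat h - 1 = mat u * (mat g - 1) * mat v) ∧
      (∀ ψ : IrrCh (U n F), ∃ lam, superchar A.X ψ = orbitSum θ lam) ∧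
      (∀ lam, ∃ ψ : IrrCh (U n F), superchar A.X ψ = orbitSum θ lam) ∧
      (∀ χ : IrrCh (U n F), IsSingleBox θ χ → A.Contains χ) ∧
      (∀ T : SupercharacterTheory (U n F),
        (∀ χ : IrrCh (U n F), IsSingleBox θ χ → T.Contains χ) → T.K ≤ A.K ∧ T.X ≤ A.X) :=
  main n F θ hθ

end Pool.Agent.Results.MP_1f99fc_al.AndreCoarsest
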